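import Pool.Agent.helper60.DB.SpecF

/-! # Row bf:CQ -/

set_option autoImplicit false

namespace Pool.Agent.helper60.DB

open Polynomial Finset Pool.Agent.helper60.DK

theorem CQ_core (h1 : IZ_stmt) (h2 : YE_stmt) (h3 : TT_stmt) (h4 : CG_stmt)
    (R k : Type) [CommRing R] [IsDomain R] [CharZero R] [Field k] (p : ℕ) [Fact p.Prime]
    [CharP k p] (q : R →+* k) (hq : Loc p q) (hp7 : 7 ≤ p) (hp11 : p ≠ 11) (u v : R) (a b : ℤ)
    (hu2 : u ^ 2 = 5) (hv2 : v ^ 2 = -3) (hqu : q u ^ p = -q u)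
    (hp : (p : ℤ) = 3 * a ^ 2 + 5 * b ^ 2) (hγ' : q (v * a + u * b) = 0) :
    ∃ z : R, aeval (-4 : R) (DA.St p)
      = (legendreSym p (-3) : ℤ) * (2 * (p : R) - 12 * (a : R) ^ 2) + (p : R) ^ 2 * z := by
  have hprime : p.Prime := Fact.out
  have hodd : Odd p := hprime.odd_of_ne_two (by omega)
  obtain ⟨m, hm⟩ := hodd
  have hhh : hh p = m := by unfold hh; omega
  -- units
  have hunit : ∀ n : ℤ, ¬ (p : ℤ) ∣ n → IsUnit (n : R) := by
    intro n hn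
    apply hq.unit
    intro h
    exact hn (((h1 R k p q hq).1 n).1 h)
  have h2u : IsUnit (2 : R) := by
    have := hunit 2 (by
      intro h
      have := Int.le_of_dvd (by norm_num) h
      omega)
    simpa using this
  have h3nd : ¬ (p : ℤ) ∣ (-3) := by
    intro h
    have h7 : (p : ℤ) ∣ 3 := (dvd_neg).1 h
    have := Int.le_of_dvd (by norm_num) h7
    omega
  have h3u : IsUnit (-3 : R) := by
    have := hunit (-3) h3nd
    push_cast at this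
    exact this
  obtain ⟨y1, w1, hy1, hw1, -⟩ := h2 R h2u (6 * (16 + 7 * u)) (-3)
  obtain ⟨y2, w2, hy2, hw2, -⟩ := h2 R h2u (6 * (16 + 7 * -u)) (-3)
  obtain ⟨z1, hz1⟩ := h4 R k p m q hq hp7 hp11 hm u v a b y1 w1 hu2 hv2 hqu hy1 hw1 hp hγ'
  obtain ⟨z2, hz2⟩ := h4 R k p m q hq hp7 hp11 hm (-u) (-v) a b y2 w2 (by rw [neg_sq]; exact hu2)
    (by rw [neg_sq]; exact hv2)
    (by
      rw [map_neg, hm, neg_pow, pow_succ, pow_mul, neg_one_sq, one_pow, ← hm, hqu]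
      ring) hy2 hw2 hp
    (by
      have : (-v * a + -u * b : R) = -(v * a + u * b) := by ring
      rw [this, map_neg, hγ', neg_zero])
  obtain ⟨z3, hz3⟩ := h3 p (by omega) R u (-4) (6 * (16 + 7 * u)) (6 * (16 + 7 * -u)) (-3) y1 w1 y2
    w2
    (by rw [hu2]; norm_num)
    (by
      rw [hu2]
      have : (4 - 5 : R) = -1 := by norm_num
      rw [this]
      exact isUnit_one.neg)
    (by norm_num)
    (by linear_combination (1764 * u ^ 4 + 1008 * u ^ 3 - 14256 * u ^ 2 - 3744 * u + 29520) * hu2)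
    (by linear_combination (1764 * u ^ 4 - 1008 * u ^ 3 - 14256 * u ^ 2 + 3744 * u + 29520) * hu2)
    hy1 hw1 hy2 hw2
  rw [hhh, hz1, hz2] at hz3
  obtain ⟨c, hc⟩ := (hq.ker _).1 hγ'
  have hpR : (p : R) = 3 * (a : R) ^ 2 + 5 * (b : R) ^ 2 := by
    have : ((p : ℤ) : R) = ((3 * a ^ 2 + 5 * b ^ 2 : ℤ) : R) := by rw [hp]
    push_cast at this
    exact this
  have hu : IsUnit (4 * (-3) ^ m : R) := by
    have h4 : (4 : R) = 2 ^ 2 := by norm_num
    rw [h4]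
    exact (h2u.pow 2).mul (h3u.pow m)
  obtain ⟨e, he⟩ := hu
  have hinv : ((e⁻¹ : Rˣ) : R) * (4 * (-3) ^ m) = 1 := by rw [← he, Units.inv_mul]
  obtain ⟨ε, hε⟩ : ∃ ε : R, ε = ((legendreSym p (-3) : ℤ) : R) := ⟨_, rfl⟩
  rw [← hε] at hz3 ⊢
  have hγ : (u * b - v * a) ^ 2 = 2 * (p : R) - 12 * (a : R) ^ 2 - p ^ 2 * c ^ 2 := by
    have h5 : (u * b - v * a) ^ 2 + (v * a + u * b) ^ 2 = 10 * (b : R) ^ 2 - 6 * (a : R) ^ 2 := by
      linear_combination (2 * (b : R) ^ 2) * hu2 + (2 * (a : R) ^ 2) * hv2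
    rw [hc] at h5
    linear_combination h5 - (2 : R) * hpR
  have hkey : (4 * (-3) ^ m) * aeval (-4 : R) (DA.St p) =
      (4 * (-3) ^ m) * (ε * (u * b - v * a) ^ 2) +
      (p : R) ^ 2 * ((2 + u) * z1 + (2 - u) * z2 + z3) := by
    have h6 : (2 + u) * (u - 2) ^ 2 + (2 - u) * (u + 2) ^ 2 = -4 := by
      linear_combination (-4 : R) * hu2
    linear_combination hz3 - ((-3) ^ m * (ε * (u * b - v * a) ^ 2)) * h6
  refine ⟨((e⁻¹ : Rˣ) : R) * ((2 + u) * z1 + (2 - u) * z2 + z3) - ε * c ^ 2, ?_⟩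
  have h6 : aeval (-4 : R) (DA.St p) = ε * (u * b - v * a) ^ 2 +
      ((e⁻¹ : Rˣ) : R) * ((p : R) ^ 2 * ((2 + u) * z1 + (2 - u) * z2 + z3)) := by
    calc aeval (-4 : R) (DA.St p)
        = (((e⁻¹ : Rˣ) : R) * (4 * (-3) ^ m)) * aeval (-4 : R) (DA.St p) := by
          rw [hinv, one_mul]
      _ = ((e⁻¹ : Rˣ) : R) * ((4 * (-3) ^ m) * aeval (-4 : R) (DA.St p)) := by ring
      _ = (((e⁻¹ : Rˣ) : R) * (4 * (-3) ^ m)) * (ε * (u * b - v * a) ^ 2) +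
          ((e⁻¹ : Rˣ) : R) * ((p : R) ^ 2 * ((2 + u) * z1 + (2 - u) * z2 + z3)) := by
          rw [hkey]; ring
      _ = _ := by rw [hinv, one_mul]
  rw [h6, hγ]
  ring

theorem CQ (h1 : IZ_stmt) (h2 : YE_stmt) (h3 : TT_stmt) (h4 : CG_stmt) : CQ_stmt := by
  intro R k _ _ _ _ p _ _ q hq hp7 hp11 u v a b hu2 hv2 hqu hp
  have hpR : (p : R) = 3 * (a : R) ^ 2 + 5 * (b : R) ^ 2 := by
    have : ((p : ℤ) : R) = ((3 * a ^ 2 + 5 * b ^ 2 : ℤ) : R) := by rw [hp]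
    push_cast at this
    exact this
  have hqp : q (p : R) = 0 := (hq.ker _).2 dvd_rfl
  have hprod : (u * b - v * a) * (v * a + u * b) = (p : R) := by
    rw [hpR]
    linear_combination ((b : R) ^ 2) * hu2 - ((a : R) ^ 2) * hv2
  have h5 : q (u * b - v * a) * q (v * a + u * b) = 0 := by
    rw [← map_mul, hprod, hqp]
  rcases mul_eq_zero.1 h5 with h6 | h6
  · refine CQ_core h1 h2 h3 h4 R k p q hq hp7 hp11 u v a (-b) hu2 hv2 hqu (by rw [hp]; ring) ?_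
    have : (v * a + u * ((-b : ℤ) : R)) = -(u * b - v * a) := by push_cast; ring
    rw [this, map_neg, h6, neg_zero]
  · exact CQ_core h1 h2 h3 h4 R k p q hq hp7 hp11 u v a b hu2 hv2 hqu hp h6

end Pool.Agent.helper60.DB
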