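import Pool.Agent.helper60.DB.SpecC

/-! # Row bc:FP -/

set_option autoImplicit false

namespace Pool.Agent.helper60.DB

open Polynomial Finset

theorem FP_coeff {k : Type} [Field k] (f : PowerSeries k) (h : f + EE f = 0) (n : ℕ) :
    ((2 * n + 1 : ℕ) : k) * PowerSeries.coeff n f = 0 := by
  have h1 := congrArg (PowerSeries.coeff n) h
  unfold EE at h1
  have e1 : (2 : PowerSeries k) * PowerSeries.X * PowerSeries.derivative k f =
      PowerSeries.X * (PowerSeries.C (2 : k) * PowerSeries.derivative k f) := by
    rw [map_ofNat]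
    ring
  rw [e1, map_add, map_zero] at h1
  cases n with
  | zero =>
    rw [PowerSeries.coeff_zero_X_mul, add_zero] at h1
    rw [h1, mul_zero]
  | succ n =>
    rw [PowerSeries.coeff_succ_X_mul, PowerSeries.coeff_C_mul, PowerSeries.coeff_derivative] at h1
    have e2 : ((2 * (n + 1) + 1 : ℕ) : k) * PowerSeries.coeff (n + 1) f =
        PowerSeries.coeff (n + 1) f + 2 * (PowerSeries.coeff (n + 1) f * ((n : k) + 1)) := by
      push_cast
      ring
    rw [e2, h1]

theorem FP : FP_stmt := by
  intro k _ p m _ _ hp f N D hD0 hN hD hDf hf hf0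
  have hp1 : p.Prime := Fact.out
  have hm1 : 1 ≤ m := by
    rcases Nat.eq_zero_or_pos m with h | h
    · rw [h] at hp
      have := hp1.one_lt
      omega
    · exact h
  have hz : ∀ j, ¬ p ∣ 2 * j + 1 → PowerSeries.coeff j f = 0 := by
    intro j hj
    have h1 := FP_coeff f hf j
    rcases mul_eq_zero.1 h1 with h2 | h2
    · exact absurd ((CharP.cast_eq_zero_iff k p _).1 h2) hj
    · exact h2
  have hz2 : ∀ j, j ≤ 2 * m → j ≠ m → PowerSeries.coeff j f = 0 := by
    intro j hj hjm
    apply hz
    rintro ⟨c, hc⟩
    rw [hp] at hc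
    have hc1 : c = 1 := by
      have h3 : c < 2 := by
        by_contra h
        have : 2 ≤ c := by omega
        have h4 : (2 * m + 1) * 2 ≤ (2 * m + 1) * c := Nat.mul_le_mul_left _ this
        rcases Nat.eq_or_lt_of_le this with h5 | h5
        · rw [← h5] at hc
          omega
        · have h6 : (2 * m + 1) * 3 ≤ (2 * m + 1) * c := Nat.mul_le_mul_left _ h5
          omega
      have h7 : c ≠ 0 := by
        rintro rfl
        rw [Nat.mul_zero] at hc
        omega
      omega
    rw [hc1] at hc
    omega
  have hcoef : ∀ n, n ≤ 2 * m → m ≤ n → N.coeff n = D.coeff (n - m) * PowerSeries.coeff m f := by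
    intro n hn hmn
    have h1 := congrArg (PowerSeries.coeff n) hDf
    rw [Polynomial.coeff_coe, PowerSeries.coeff_mul] at h1
    rw [← h1, Finset.sum_eq_single (n - m, m)]
    · rw [Polynomial.coeff_coe]
    · rintro ⟨a, b⟩ hab hne
      rw [Finset.HasAntidiagonal.mem_antidiagonal] at hab
      have h2 : a + b = n := hab
      have h3 : b ≠ m := by
        rintro rfl
        exact hne (by rw [← h2]; simp)
      show PowerSeries.coeff a (D : PowerSeries k) * PowerSeries.coeff b f = 0
      rw [hz2 b (by omega) h3, mul_zero]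
    · intro h
      exact absurd (Finset.HasAntidiagonal.mem_antidiagonal.2 (Nat.sub_add_cancel hmn)) h
  have hlow : ∀ n, n < m → N.coeff n = 0 := by
    intro n hn
    have h1 := congrArg (PowerSeries.coeff n) hDf
    rw [Polynomial.coeff_coe, PowerSeries.coeff_mul] at h1
    rw [← h1]
    apply Finset.sum_eq_zero
    rintro ⟨a, b⟩ hab
    rw [Finset.HasAntidiagonal.mem_antidiagonal] at hab
    have h2 : a + b = n := hab
    show PowerSeries.coeff a (D : PowerSeries k) * PowerSeries.coeff b f = 0
    rw [hz2 b (by omega) (by omega), mul_zero]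
  have hNm : N.coeff m = PowerSeries.coeff m f := by
    rw [hcoef m (by omega) le_rfl, Nat.sub_self, hD0, one_mul]
  have hNX : N = C (PowerSeries.coeff m f) * X ^ m := by
    ext n
    rw [Polynomial.coeff_C_mul, Polynomial.coeff_X_pow]
    rcases lt_trichotomy n m with h | h | h
    · rw [hlow n h, if_neg (by omega), mul_zero]
    · rw [h, if_pos rfl, mul_one, hNm]
    · rw [if_neg (by omega), mul_zero]
      exact Polynomial.coeff_eq_zero_of_natDegree_lt (by omega)
  have hfm : PowerSeries.coeff m f ≠ 0 := by
    intro h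
    rw [h, map_zero, zero_mul] at hNX
    rw [hNX] at hDf
    have h1 : (D : PowerSeries k) * f = 0 := by
      rw [hDf]
      exact Polynomial.coe_zero
    rcases mul_eq_zero.1 h1 with h2 | h2
    · have h3 : D.coeff 0 = 0 := by
        rw [← Polynomial.coeff_coe, h2, map_zero]
      rw [h3] at hD0
      exact zero_ne_one hD0
    · exact hf0 h2
  refine ⟨_, hfm, hNX, ?_⟩
  ext n
  rw [Polynomial.coeff_one]
  rcases Nat.eq_zero_or_pos n with h | h
  · rw [h, if_pos rfl, hD0]
  · rw [if_neg (by omega)]
    by_cases hn : n ≤ m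
    · have h1 := hcoef (m + n) (by omega) (by omega)
      rw [Nat.add_sub_cancel_left, Polynomial.coeff_eq_zero_of_natDegree_lt (by omega)] at h1
      rcases mul_eq_zero.1 h1.symm with h2 | h2
      · exact h2
      · exact absurd h2 hfm
    · exact Polynomial.coeff_eq_zero_of_natDegree_lt (by omega)

end Pool.Agent.helper60.DB
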